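import Pool.Agent.W799.SRLMain

set_option autoImplicit false

open MeasureTheory Set Filter Topology
open scoped ContDiff

namespace Pool.Agent.Y285.SR

open Pool.Agent.W799.SRL

/-! ### lower bound of the kernel of `-a u''`: it decays slower than any exponential -/

/-- curvature profile, supported in `[-1,1]` -/
noncomputable def cw (x : ℝ) : ℝ := max 0 (1 - x ^ 2)
noncomputable def c1 (x : ℝ) : ℝ := ∫ s in (0:ℝ)..x, cw s
noncomputable def c0 (x : ℝ) : ℝ := ∫ s in (0:ℝ)..x, c1 s

lemma cw_cont : Continuous cw := by unfold cw; fun_prop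
lemma cw_nonneg (x : ℝ) : 0 ≤ cw x := le_max_left _ _
lemma cw_le (x : ℝ) : cw x ≤ 1 := max_le zero_le_one (by nlinarith [sq_nonneg x])
lemma cw_zero {x : ℝ} (hx : 1 ≤ |x|) : cw x = 0 := by
  apply max_eq_left
  have : 1 ≤ x ^ 2 := by rw [← sq_abs]; exact one_le_pow₀ hx
  linarith
lemma c1_deriv (x : ℝ) : HasDerivAt c1 (cw x) x :=
  intervalIntegral.integral_hasDerivAt_right (cw_cont.intervalIntegrable _ _)
    cw_cont.stronglyMeasurable.stronglyMeasurableAtFilter cw_cont.continuousAt
lemma c1_cont : Continuous c1 := continuous_iff_continuousAt.2 fun x => (c1_deriv x).continuousAt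
lemma c0_deriv (x : ℝ) : HasDerivAt c0 (c1 x) x :=
  intervalIntegral.integral_hasDerivAt_right (c1_cont.intervalIntegrable _ _)
    c1_cont.stronglyMeasurable.stronglyMeasurableAtFilter c1_cont.continuousAt
lemma c0_cont : Continuous c0 := continuous_iff_continuousAt.2 fun x => (c0_deriv x).continuousAt
lemma c1_mono : Monotone c1 := monotone_of_hasDerivAt_nonneg (fun x => c1_deriv x) cw_nonneg
lemma c1_at_zero : c1 0 = 0 := by unfold c1; simp
lemma c0_at_zero : c0 0 = 0 := by unfold c0; simp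
lemma c1_nonneg {x : ℝ} (hx : 0 ≤ x) : 0 ≤ c1 x := c1_at_zero ▸ c1_mono hx
lemma c1_le {x : ℝ} (hx : 0 ≤ x) (hx1 : x ≤ 1) : c1 x ≤ 1 := by
  have : c1 x ≤ ∫ s in (0:ℝ)..x, (1:ℝ) :=
    intervalIntegral.integral_mono_on hx (cw_cont.intervalIntegrable _ _)
      (continuous_const.intervalIntegrable _ _) (fun s _ => cw_le s)
  refine this.trans ?_
  simp; linarith
lemma c1_one_pos : 0 < c1 1 := by
  unfold c1
  apply intervalIntegral.intervalIntegral_pos_of_pos_on (cw_cont.intervalIntegrable _ _) _ one_pos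
  intro x hx
  unfold cw
  have : x ^ 2 < 1 := by nlinarith [hx.1, hx.2]
  exact lt_max_of_lt_right (by linarith)
lemma c0_mono : MonotoneOn c0 (Ici 0) := by
  apply monotoneOn_of_deriv_nonneg (convex_Ici 0) c0_cont.continuousOn
  · exact fun x _ => (c0_deriv x).differentiableAt.differentiableWithinAt
  · intro x hx
    rw [interior_Ici] at hx
    rw [(c0_deriv x).deriv]
    exact c1_nonneg (le_of_lt hx)
lemma c1_neg (x : ℝ) : c1 (-x) = -c1 x := by
  unfold c1
  have h := intervalIntegral.integral_comp_neg (f := cw) (a := 0) (b := x)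
  have e : (fun s => cw (-s)) = cw := by funext s; unfold cw; rw [neg_sq]
  simp only [neg_zero] at h
  rw [intervalIntegral.integral_symm, ← h]
  congr 1
  exact intervalIntegral.integral_congr fun s _ => by unfold cw; rw [neg_sq]
lemma c0_neg (x : ℝ) : c0 (-x) = c0 x := by
  unfold c0
  have h := intervalIntegral.integral_comp_neg (f := c1) (a := 0) (b := x)
  simp only [neg_zero] at h
  rw [intervalIntegral.integral_symm, ← h, ← intervalIntegral.integral_neg]
  exact intervalIntegral.integral_congr fun s _ => by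
    show -c1 (-s) = c1 s
    rw [c1_neg, neg_neg]
lemma c0_abs (x : ℝ) : c0 |x| = c0 x := by
  rcases abs_choice x with h | h <;> rw [h]
  exact c0_neg x
lemma c0_le_of_abs {x R : ℝ} (hx : |x| ≤ R) : c0 x ≤ c0 R := by
  rw [← c0_abs x]
  exact c0_mono (abs_nonneg x) ((abs_nonneg x).trans hx) hx
lemma c0_nonneg (x : ℝ) : 0 ≤ c0 x := by
  rw [← c0_abs x, ← c0_at_zero]
  exact c0_mono (le_refl (0:ℝ)) (abs_nonneg x) (abs_nonneg x)
lemma c0_one_le : c0 1 ≤ 1 := by
  have : c0 1 ≤ ∫ s in (0:ℝ)..1, (1:ℝ) :=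
    intervalIntegral.integral_mono_on zero_le_one (c1_cont.intervalIntegrable _ _)
      (continuous_const.intervalIntegrable _ _) (fun s hs => c1_le hs.1 hs.2)
  simpa using this
lemma c0_large (B : ℝ) : ∃ R, 1 ≤ R ∧ B ≤ c0 R := by
  have h : ∀ x, 1 ≤ x → c1 1 * (x - 1) ≤ c0 x := by
    intro x hx
    have h1 : ∫ s in (1:ℝ)..x, c1 1 ≤ ∫ s in (1:ℝ)..x, c1 s :=
      intervalIntegral.integral_mono_on hx (continuous_const.intervalIntegrable _ _)
        (c1_cont.intervalIntegrable _ _) (fun s hs => c1_mono hs.1)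
    have h2 : c0 x = c0 1 + ∫ s in (1:ℝ)..x, c1 s := by
      unfold c0
      rw [intervalIntegral.integral_add_adjacent_intervals (c1_cont.intervalIntegrable _ _)
        (c1_cont.intervalIntegrable _ _)]
    rw [h2]
    have h3 := c0_nonneg 1
    simp at h1
    nlinarith
  refine ⟨1 + |B| / c1 1, ?_, ?_⟩
  · have := c1_one_pos
    have : 0 ≤ |B| / c1 1 := by positivity
    linarith
  · have h4 := c1_one_pos
    refine le_trans ?_ (h _ ?_)
    · have : c1 1 * (1 + |B| / c1 1 - 1) = |B| := by field_simp; ring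
      rw [this]; exact le_abs_self B
    · have : 0 ≤ |B| / c1 1 := by positivity
      linarith

lemma fund_jet {P : Op} {k : ℝ → ℝ → ℝ → ℝ} (hk : IsFundamental P k) (x y : ℝ) {t : ℝ}
    (ht : 0 < t) : Jet (fun x t => k x y (1 + t)) x t (deriv (fun s => k x y s) (1 + t))
      (deriv (fun x => k x y (1 + t)) x) (deriv (deriv (fun x => k x y (1 + t))) x) := by
  have ht1 : 0 < 1 + t := by linarith
  have h3 : ContDiff ℝ (1 + 1) (fun x => k x y (1 + t)) :=
    (hk.smooth_x y (1 + t) ht1).of_le (by norm_num)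
  rw [contDiff_succ_iff_deriv] at h3
  refine ⟨?_, deriv (fun x => k x y (1 + t)), Eventually.of_forall fun z => (h3.1 z).hasDerivAt,
    rfl, (h3.2.2.differentiable (by norm_num) x).hasDerivAt⟩
  have h1 := (hk.diff_t x y (1 + t) ht1).hasDerivAt
  have h2 : HasDerivAt (fun s : ℝ => 1 + s) 1 t := by simpa using (hasDerivAt_id t).const_add 1
  have h4 := h1.comp t h2
  rw [mul_one] at h4
  exact h4

/-- every fundamental solution of `u_t = a u_xx` decays slower than any exponential, locally
uniformly in space -/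
theorem kernel_lower {a : ℝ → ℝ} (ha : Continuous a) (ha0 : ∀ x, 0 < a x)
    {k : ℝ → ℝ → ℝ → ℝ} (hk : IsFundamental (opA a) k) (A : ℝ) {ε : ℝ} (hε : 0 < ε) :
    ∃ c > 0, ∀ x y t : ℝ, |x| ≤ A → |y| ≤ A → 1 ≤ t → c * Real.exp (-(ε * t)) ≤ k x y t := by
  by_cases hA : 0 ≤ A
  swap
  · exact ⟨1, one_pos, fun x y t hx => absurd ((abs_nonneg x).trans hx) hA⟩
  obtain ⟨M, hM⟩ := (isCompact_Icc (a := (-1:ℝ)) (b := 1)).bddAbove_image ha.continuousOn
  have hM' : ∀ x, |x| ≤ 1 → a x ≤ M := fun x hx => hM ⟨x, abs_le.1 hx, rfl⟩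
  obtain ⟨R, hR1, hR⟩ := c0_large (max (max 2 (2 * M / ε)) (max (2 * c0 A) (c0 (A + 1) + 1)))
  set L := c0 R with hL
  have hL2 : 2 ≤ L := (le_max_left _ _).trans ((le_max_left _ _).trans hR)
  have hLM : 2 * M / ε ≤ L := (le_max_right _ _).trans ((le_max_left _ _).trans hR)
  have hLA : 2 * c0 A ≤ L := (le_max_left _ _).trans ((le_max_right _ _).trans hR)
  have hRA : A ≤ R := by
    by_contra hcon
    push Not at hcon
    have h1 : L ≤ c0 A := c0_mono (by simp; linarith) hA hcon.le
    have := c0_nonneg A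
    linarith
  have hL0 : 0 < L := by linarith
  -- positivity at time one
  obtain ⟨c, hc0, hc⟩ : ∃ c > 0, ∀ x y : ℝ, |x| ≤ R → |y| ≤ A → c ≤ k x y 1 := by
    have hcomp : IsCompact (Icc (-R) R ×ˢ Icc (-A) A) := isCompact_Icc.prod isCompact_Icc
    have hcont : ContinuousOn (fun p : ℝ × ℝ => k p.1 p.2 1) (Icc (-R) R ×ˢ Icc (-A) A) := by
      have := hk.cont.comp (f := fun p : ℝ × ℝ => (p.1, p.2, (1:ℝ))) (s := univ) (by fun_prop)
        (fun p _ => (one_pos : (0:ℝ) < 1))
      exact this.mono (subset_univ _)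
    obtain ⟨⟨x0, y0⟩, h0, hmin⟩ := hcomp.exists_isMinOn
      ⟨(0, 0), ⟨⟨by linarith, by linarith⟩, ⟨by linarith, hA⟩⟩⟩ hcont
    exact ⟨k x0 y0 1, hk.pos _ _ _ one_pos, fun x y hx hy =>
      hmin (show (x, y) ∈ _ from ⟨abs_le.1 hx, abs_le.1 hy⟩)⟩
  refine ⟨c / 2, by positivity, fun x y t hx hy ht => ?_⟩
  have key : ∀ x ∈ Icc (-R) R, ∀ s ∈ Icc 0 (t - 1),
      0 ≤ k x y (1 + s) - c * Real.exp (-(ε * s)) * (1 - c0 x / L) := by
    refine maxP (a := a) (b := fun _ => 0)
      (z := fun x s => k x y (1 + s) - c * Real.exp (-(ε * s)) * (1 - c0 x / L)) ?_ ?_ ?_ ?_ ?_ ?_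
    · have h1 : ContinuousOn (fun p : ℝ × ℝ => k p.1 y (1 + p.2)) (Icc (-R) R ×ˢ Icc 0 (t - 1)) := by
        refine hk.cont.comp (f := fun p : ℝ × ℝ => (p.1, y, 1 + p.2)) (by fun_prop) ?_
        rintro ⟨p1, p2⟩ ⟨_, hp⟩
        show 0 < 1 + p2
        linarith [hp.1]
      have h2 := c0_cont
      refine h1.sub (Continuous.continuousOn ?_)
      fun_prop
    · intro x hx
      simp only [add_zero, mul_zero, neg_zero, Real.exp_zero, mul_one]
      have h1 := hc x y (abs_le.2 hx) hy
      have h2 : 0 ≤ c0 x / L := div_nonneg (c0_nonneg x) hL0.le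
      nlinarith
    · intro s hs
      have h1 := hk.pos (-R) y (1 + s) (by linarith [hs.1])
      have h2 : c0 (-R) / L = 1 := by rw [c0_neg]; exact div_self hL0.ne'
      simp only [h2, sub_self, mul_zero, sub_zero]
      exact h1.le
    · intro s hs
      have h1 := hk.pos R y (1 + s) (by linarith [hs.1])
      have h2 : c0 R / L = 1 := div_self hL0.ne'
      simp only [h2, sub_self, mul_zero, sub_zero]
      exact h1.le
    · exact fun x _ => (ha0 x).le
    · intro x hx s hs
      have hxR : |x| ≤ R := abs_le.2 ⟨hx.1.le, hx.2.le⟩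
      have hj1 := fund_jet hk x y hs.1
      have hj2 : Jet (fun x s => c * Real.exp (-(ε * s)) * (1 - c0 x / L)) x s
          (c * (-ε * Real.exp (-(ε * s))) * (1 - c0 x / L))
          (c * Real.exp (-(ε * s)) * (-(c1 x / L))) (c * Real.exp (-(ε * s)) * (-(cw x / L))) := by
        refine ⟨?_, fun z => c * Real.exp (-(ε * s)) * (-(c1 z / L)), ?_, rfl, ?_⟩
        · have h1 : HasDerivAt (fun s : ℝ => Real.exp (-(ε * s))) (-ε * Real.exp (-(ε * s))) s := by
            have := (((hasDerivAt_id s).const_mul ε).neg).exp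
            refine this.congr_deriv ?_
            simp; ring
          exact (h1.const_mul c).mul_const _
        · refine Eventually.of_forall fun z => ?_
          have h1 : HasDerivAt (fun z => 1 - c0 z / L) (-(c1 z / L)) z :=
            ((c0_deriv z).div_const L).const_sub 1
          exact h1.const_mul _
        · have h1 : HasDerivAt (fun z => -(c1 z / L)) (-(cw x / L)) x :=
            ((c1_deriv x).div_const L).neg
          exact h1.const_mul _
      refine ⟨_, _, _, hj1.sub hj2, ?_⟩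
      have heq := hk.eqn x y (1 + s) (by linarith [hs.1])
      simp only [Op.app, opA, zero_mul, add_zero] at heq
      have hE : 0 < c * Real.exp (-(ε * s)) := mul_pos hc0 (Real.exp_pos _)
      have hmain : a x * (cw x / L) ≤ ε * (1 - c0 x / L) := by
        rcases le_total 1 |x| with h | h
        · rw [cw_zero h, zero_div, mul_zero]
          apply mul_nonneg hε.le
          rw [sub_nonneg, div_le_one hL0]
          exact c0_le_of_abs hxR
        · have h1 : c0 x / L ≤ 1 / 2 := by
            rw [div_le_div_iff₀ hL0 two_pos]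
            have := (c0_le_of_abs h).trans c0_one_le
            linarith
          have h2 : a x * (cw x / L) ≤ ε / 2 := by
            rw [← mul_div_assoc, div_le_iff₀ hL0]
            have h3 : a x * cw x ≤ M * 1 :=
              mul_le_mul (hM' x h) (cw_le x) (cw_nonneg x) ((ha0 x).le.trans (hM' x h))
            rw [div_le_iff₀ hε] at hLM
            nlinarith
          nlinarith
      have := mul_le_mul_of_nonneg_left hmain hE.le
      nlinarith
  have hxR : |x| ≤ R := hx.trans hRA
  have h1 := key x (abs_le.1 hxR) (t - 1) ⟨by linarith, le_rfl⟩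
  have h2 : c0 x / L ≤ 1 / 2 := by
    rw [div_le_div_iff₀ hL0 two_pos]
    have := c0_le_of_abs hx
    linarith
  have h3 : (1:ℝ) + (t - 1) = t := by ring
  rw [h3] at h1
  have h4 : Real.exp (-(ε * t)) ≤ Real.exp (-(ε * (t - 1))) := by
    apply Real.exp_le_exp.2
    nlinarith
  have h5 : 0 < Real.exp (-(ε * t)) := Real.exp_pos _
  have h6 : c * Real.exp (-(ε * (t - 1))) * (1 / 2) ≤
      c * Real.exp (-(ε * (t - 1))) * (1 - c0 x / L) := by
    gcongr
    linarith
  have h7 : c * Real.exp (-(ε * t)) ≤ c * Real.exp (-(ε * (t - 1))) := by gcongr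
  linarith

end Pool.Agent.Y285.SR
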