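import Pool.Agent.W799.SRLMain

set_option autoImplicit false

open MeasureTheory Set Filter Topology
open scoped ContDiff

namespace Pool.Agent.Y285.SR

open Pool.Agent.W799.SRL

/-- choice of the parameters, for a growth function `h` with `liminf h(t)/t ≤ 0` -/
lemma exists_params {h : ℝ → ℝ} (hh : ∀ ε > 0, ∀ T : ℝ, ∃ t ≥ T, h t ≤ ε * t) :
    ∃ (α ℓ t : ℕ → ℝ), (∀ n, 0 < α n) ∧ (∀ n, α n ≤ 1) ∧ Antitone α ∧
    (∀ n, 0 < ℓ n) ∧ (∀ n, ℓ n ≤ 1) ∧ (∀ n : ℕ, (n : ℝ) + 2 ≤ t n) ∧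
    (∀ n : ℕ, (t n) ^ 2 * Real.exp (max (h (t n)) 0) *
      Real.exp (-(α n / ((n : ℝ) + 2) ^ 2 * t n)) ≤ 1) ∧
    (∀ n, ℓ n = 1 / (5 * ((t n) ^ 2 * ((t n) ^ 2 * Real.exp (max (h (t n)) 0))))) ∧
    (∀ n, α (n + 1) ≤ ℓ n ^ 2 / (4 * (t n * ((t n) ^ 2 * Real.exp (max (h (t n)) 0))))) := by
  have hchoice : ∀ (j : ℕ) (α : ℝ), ∃ t : ℝ, (j : ℝ) + 2 ≤ t ∧
      (0 < α → t ^ 2 * Real.exp (max (h t) 0) * Real.exp (-(α / (j + 2) ^ 2 * t)) ≤ 1) := by
    intro j α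
    by_cases hα : 0 < α
    · have hb : 0 < α / ((j : ℝ) + 2) ^ 2 / 2 := by positivity
      have h1 := tendsto_rpow_mul_exp_neg_mul_atTop_nhds_zero 2 _ hb
      obtain ⟨T, hT⟩ := eventually_atTop.1 ((h1.eventually_lt_const one_pos).and
        (eventually_ge_atTop ((j : ℝ) + 2)))
      obtain ⟨t, htT, hht⟩ := hh _ hb T
      obtain ⟨ht1, ht2⟩ := hT t htT
      refine ⟨t, ht2, fun _ => ?_⟩
      have ht0 : 0 ≤ t := by
        have : (0:ℝ) ≤ j := Nat.cast_nonneg j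
        linarith
      have : t ^ (2:ℝ) = t ^ 2 := by norm_num
      rw [this] at ht1
      have hm : max (h t) 0 ≤ α / ((j : ℝ) + 2) ^ 2 / 2 * t := max_le hht (by positivity)
      rw [mul_assoc, ← Real.exp_add]
      refine le_trans ?_ ht1.le
      gcongr
      linarith
    · exact ⟨j + 2, le_rfl, fun h => absurd h hα⟩
  choose tt htt1 htt2 using hchoice
  let α : ℕ → ℝ := fun n => Nat.rec 1
    (fun n αn => min αn ((1 / (5 * ((tt n αn) ^ 2 * ((tt n αn) ^ 2 *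
      Real.exp (max (h (tt n αn)) 0))))) ^ 2 / (4 * (tt n αn * ((tt n αn) ^ 2 *
      Real.exp (max (h (tt n αn)) 0)))))) n
  have hαs : ∀ n, α (n + 1) = min (α n) ((1 / (5 * ((tt n (α n)) ^ 2 * ((tt n (α n)) ^ 2 *
      Real.exp (max (h (tt n (α n))) 0))))) ^ 2 / (4 * (tt n (α n) * ((tt n (α n)) ^ 2 *
      Real.exp (max (h (tt n (α n))) 0))))) :=
    fun n => rfl
  have ht2 : ∀ n, (2:ℝ) ≤ tt n (α n) := fun n => by
    have := htt1 n (α n); have : (0:ℝ) ≤ n := Nat.cast_nonneg n; linarith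
  have hpos : ∀ n, 0 < α n := by
    intro n
    induction n with
    | zero => exact one_pos
    | succ n ih =>
      rw [hαs]
      have := ht2 n
      exact lt_min ih (by positivity)
  have hanti : Antitone α := antitone_nat_of_succ_le fun n => by rw [hαs]; exact min_le_left _ _
  refine ⟨α, fun n => 1 / (5 * ((tt n (α n)) ^ 2 * ((tt n (α n)) ^ 2 *
      Real.exp (max (h (tt n (α n))) 0)))), fun n => tt n (α n), hpos,
    fun n => hanti (Nat.zero_le n), hanti, fun n => ?_, fun n => ?_, fun n => htt1 n _,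
    fun n => htt2 n _ (hpos n), fun n => rfl, fun n => ?_⟩
  · have := ht2 n; positivity
  · have := ht2 n
    rw [div_le_one (by positivity)]
    have h1 : (1:ℝ) ≤ (tt n (α n)) ^ 2 := one_le_pow₀ (by linarith)
    have h2 : (1:ℝ) ≤ Real.exp (max (h (tt n (α n))) 0) := Real.one_le_exp (le_max_right _ _)
    have h3 : (1:ℝ) ≤ (tt n (α n)) ^ 2 * Real.exp (max (h (tt n (α n))) 0) := by nlinarith
    nlinarith
  · rw [hαs]; exact min_le_right _ _

/-- the trap operator: the solution with initial value `tent` is smaller than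
`5 / (t² exp (h t))` at the times `t n` -/
theorem exists_trap {h : ℝ → ℝ} (hh : ∀ ε > 0, ∀ T : ℝ, ∃ t ≥ T, h t ≤ ε * t) :
    ∃ (a : ℝ → ℝ) (t : ℕ → ℝ), ContDiff ℝ ∞ a ∧ (∀ x, 0 < a x) ∧
    (∀ x, a x ≤ 1) ∧ (∀ n : ℕ, (n : ℝ) + 2 ≤ t n) ∧
    ∀ n : ℕ, 1 ≤ n → ∃ w, IsSuper (opA a) w ∧ (∀ x, tent x ≤ w x 0) ∧
      w 0 (t n) ≤ 5 / ((t n) ^ 2 * Real.exp (max (h (t n)) 0)) := by
  obtain ⟨α, ℓ, t, hα, hα1, hanti, hℓ, hℓ1, ht, hte, hℓt, hαℓ⟩ := exists_params hh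
  obtain ⟨a, ha, ha0, ha1, hal, hau⟩ := exists_profile α ℓ hα hα1 hanti hℓ hℓ1
  refine ⟨a, t, ha, ha0, ha1, ht, fun n hn => ?_⟩
  have hn' : (1:ℝ) ≤ n := by exact_mod_cast hn
  have htn := ht n
  have ht3 : 3 ≤ t n := by linarith
  have ht0 : 0 < t n := by linarith
  set e : ℝ := (t n) ^ 2 * Real.exp (max (h (t n)) 0) with he
  have hE1 : (1:ℝ) ≤ Real.exp (max (h (t n)) 0) := Real.one_le_exp (le_max_right _ _)
  have he0 : 0 < e := by positivity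
  set r : ℝ := n + 2 * ℓ n with hr
  have hr1 : 1 ≤ r := by linarith [hℓ n]
  have hrt : r ≤ t n := by linarith [hℓ1 n]
  obtain ⟨w, hw, hw0, hub⟩ := upper_one hn' (hℓ n) (hℓ1 n) (hα n) (hα (n + 1)) ha0 ha1
    (fun x hx => hal n x hx) (fun x hx => hau n x hx) hr rfl (t n)
  refine ⟨w, hw, hw0, hub.trans ?_⟩
  have hℓn := hℓ n
  have hr0 : 0 < r := by linarith
  have hlam1 : α n / r ^ 2 ≤ 1 := by
    rw [div_le_one (by positivity)]
    exact (hα1 n).trans (one_le_pow₀ hr1)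
  have hlam0 : 0 < α n / r ^ 2 := div_pos (hα n) (by positivity)
  -- exponential term
  have E : 2 * Real.exp (-(α n / r ^ 2 * t n)) ≤ 2 / e := by
    have h1 : Real.exp (-(α n / r ^ 2 * t n)) ≤ Real.exp (-(α n / ((n:ℝ) + 2) ^ 2 * t n)) := by
      apply Real.exp_le_exp.2
      have : α n / ((n:ℝ) + 2) ^ 2 ≤ α n / r ^ 2 := by
        have := hα n
        gcongr
        linarith [hℓ1 n]
      have := mul_le_mul_of_nonneg_right this ht0.le
      linarith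
    have h2 := hte n
    rw [le_div_iff₀ he0]
    nlinarith [mul_le_mul_of_nonneg_left h1 he0.le]
  have ht2 : (1:ℝ) ≤ (t n) ^ 2 := one_le_pow₀ (by linarith)
  have hℓe : ℓ n * (5 * ((t n) ^ 2 * e)) = 1 := by
    rw [hℓt n, ← he]; field_simp
  -- first term
  have T1 : α n / r ^ 2 * (4 * ℓ n + ℓ n ^ 2) * t n ≤ 1 / e := by
    have h1 : ℓ n ^ 2 ≤ ℓ n := by nlinarith [hℓ1 n]
    have h2 : α n / r ^ 2 * (4 * ℓ n + ℓ n ^ 2) ≤ 1 * (5 * ℓ n) :=
      mul_le_mul hlam1 (by linarith) (by positivity) zero_le_one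
    rw [le_div_iff₀ he0]
    calc α n / r ^ 2 * (4 * ℓ n + ℓ n ^ 2) * t n * e
        ≤ 1 * (5 * ℓ n) * t n * e := by gcongr
      _ = 5 * ℓ n * e * t n := by ring
      _ ≤ 5 * ℓ n * e * (t n) ^ 2 := by
          gcongr
          nlinarith
      _ = 1 := by linarith
  have T2 : 2 * ℓ n * r * t n ≤ 1 / e := by
    rw [le_div_iff₀ he0]
    calc 2 * ℓ n * r * t n * e ≤ 2 * ℓ n * t n * t n * e := by gcongr
      _ = 2 * (ℓ n * ((t n) ^ 2 * e)) := by ring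
      _ ≤ 1 := by linarith
  have T3 : 4 * α (n + 1) / ℓ n ^ 2 * t n ≤ 1 / e := by
    have h1 := hαℓ n
    rw [le_div_iff₀ (by positivity)] at h1
    rw [le_div_iff₀ he0]
    have : 4 * α (n + 1) / ℓ n ^ 2 * t n * e = α (n + 1) * (4 * (t n * e)) / ℓ n ^ 2 := by
      ring
    rw [this, div_le_one (by positivity)]
    exact h1
  have : (α n / r ^ 2 * (4 * ℓ n + ℓ n ^ 2) + 2 * ℓ n * r + 4 * α (n + 1) / ℓ n ^ 2) * t n =
      α n / r ^ 2 * (4 * ℓ n + ℓ n ^ 2) * t n + 2 * ℓ n * r * t n +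
        4 * α (n + 1) / ℓ n ^ 2 * t n := by ring
  rw [this]
  have e5 : (5:ℝ) / e = 2 / e + 1 / e + 1 / e + 1 / e := by
    ring
  rw [e5]; linarith

end Pool.Agent.Y285.SR
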